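import Pool.Agent.H46.Ent.Main
import Pool.Agent.H46.Ent.Iid

/-!
# Equal weights do not maximise the entropy of sums of i.i.d. symmetric log-concave variables

For every `n ≥ 2` and every unit vector `d ∈ ℝⁿ` which is not flat (two of its nonzero entries
have different absolute values) there is an even convex `V : ℝ → ℝ` with `∫ exp (-V) = 1` such
that for i.i.d. `X₁, …, Xₙ` with density `exp (-V)`

`h (∑ dᵢ Xᵢ) > h (n^{-1/2} ∑ Xᵢ)`.
-/

set_option autoImplicit false

open MeasureTheory ProbabilityTheory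

namespace Pool.Agent.Results.MP_1d7c3b_pr.NonFlatWeights

/-- The integrand `- p log p` of the differential entropy of a measure on the line, `p` being its
density with respect to Lebesgue measure. -/
noncomputable def entIntegrand (μ : Measure ℝ) (x : ℝ) : ℝ :=
  Real.negMulLog ((μ.rnDeriv volume x).toReal)

/-- Differential entropy of a measure on the line. -/
noncomputable def diffEntropy (μ : Measure ℝ) : ℝ := ∫ x, entIntegrand μ x

/-- The law of `∑ dᵢ Xᵢ`. -/
noncomputable def lawSum {Ω : Type} [MeasurableSpace Ω] (P : Measure Ω) {n : ℕ}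
    (X : Fin n → Ω → ℝ) (d : Fin n → ℝ) : Measure ℝ :=
  P.map (fun w => ∑ i, d i * X i w)

open Pool.Agent.H46.Ent in
theorem integrable_ent {Ω : Type} [MeasureSpace Ω] [IsProbabilityMeasure (volume : Measure Ω)]
    {n : ℕ} {ε ω : ℝ} (hε : 0 ≤ ε) (hε1 : ε ≤ 1) {X : Fin n → Ω → ℝ} (hXm : ∀ i, Measurable (X i))
    (hind : iIndepFun X (volume : Measure Ω))
    (hlaw : ∀ i, Measure.map (X i) (volume : Measure Ω) =
      volume.withDensity (fun x => ENNReal.ofReal (fd ε ω x)))
    {d : Fin n → ℝ} (h : Good ε ω d) :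
    lawSum (volume : Measure Ω) X d ≪ volume ∧
    Integrable (entIntegrand (lawSum (volume : Measure Ω) X d)) := by
  have hl := law ε ω (fd_nonneg hε hε1) X hXm hind hlaw d h.unit (q_nonneg hε h)
  constructor
  · unfold lawSum
    rw [hl]
    exact withDensity_absolutelyContinuous _ _
  have hcq : Continuous (fun y => Kc n ε ω * (gk y * Wd ε ω d y)) := by
    have := continuous_gk
    have := continuous_Wd ε ω d
    fun_prop
  have hae : ∀ᵐ x ∂(volume : Measure ℝ), entIntegrand (lawSum (volume : Measure Ω) X d) x =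
      Real.negMulLog (Kc n ε ω * (gk x * Wd ε ω d x)) := by
    unfold entIntegrand lawSum
    rw [hl]
    filter_upwards [Measure.rnDeriv_withDensity (volume : Measure ℝ)
      (f := fun y => ENNReal.ofReal (Kc n ε ω * (gk y * Wd ε ω d y)))
      (hcq.measurable.ennreal_ofReal)] with x hx
    rw [hx, ENNReal.toReal_ofReal (q_nonneg hε h x)]
  refine Integrable.congr ?_ (hae.mono fun x hx => hx.symm)
  have hpt : ∀ x, Real.negMulLog (Kc n ε ω * (gk x * Wd ε ω d x)) =
      (- Real.log (Kc n ε ω)) * (Kc n ε ω * (gk x * Wd ε ω d x)) +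
      (1 / 2) * (x ^ 2 * (Kc n ε ω * (gk x * Wd ε ω d x))) -
      Kc n ε ω * (gk x * (Wd ε ω d x * Real.log (Wd ε ω d x))) := by
    intro x
    have h1 := Kc_pos n (ω := ω) hε
    have h2 := gk_pos x
    have h3 := h.pos x
    unfold Real.negMulLog
    rw [Real.log_mul h1.ne' (by positivity), Real.log_mul h2.ne' h3.ne']
    have : Real.log (gk x) = -(x ^ 2) / 2 := by unfold gk; rw [Real.log_exp]
    rw [this]
    ring
  simp_rw [hpt]
  have i1 : Integrable (fun x => Kc n ε ω * (gk x * Wd ε ω d x)) :=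
    (integrable_gk_tp _ _).const_mul _
  have i2 : Integrable (fun x => x ^ 2 * (Kc n ε ω * (gk x * Wd ε ω d x))) := by
    have := (integrable_sq_gk_tp (am ε ω d) (fun s => ω * sd d s)).const_mul (Kc n ε ω)
    refine this.congr (Filter.Eventually.of_forall fun x => ?_)
    simp only [Wd]
    ring
  have i3 : Integrable (fun x => gk x * (Wd ε ω d x * Real.log (Wd ε ω d x))) := by
    refine integrable_gk_mul (continuous_xlogx (continuous_Wd ε ω d)) 2 fun y => ?_
    have hs := h.bound y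
    rw [abs_le] at hs
    have h1 := xlogx_upper (s := Wd ε ω d y - 1) (by linarith)
    have h2 := xlogx_lower (s := Wd ε ω d y - 1) (by linarith) (by linarith)
    have e : 1 + (Wd ε ω d y - 1) = Wd ε ω d y := by ring
    rw [e] at h1 h2
    rw [abs_le]
    constructor <;> nlinarith
  exact ((i1.const_mul _).add (i2.const_mul _)).sub (i3.const_mul _)

/-- For every `n ≥ 2` and every unit vector `d` two of whose nonzero entries differ in absolute
value there is a symmetric log-concave probability density `exp (-V)` (with `V` even, finite and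
convex) such that for all i.i.d. `X₁, …, Xₙ` with this density, the laws of `∑ dᵢ Xᵢ` and of
`∑ n^{-1/2} Xᵢ` have finite entropies (integrable entropy integrands) and
`h (∑ n^{-1/2} Xᵢ) < h (∑ dᵢ Xᵢ)`. Such i.i.d. families exist. -/
theorem result (n : ℕ) (hn : 2 ≤ n) (d : Fin n → ℝ) (hd : ∑ i, d i ^ 2 = 1)
    (hflat : ∃ i j, d i ≠ 0 ∧ d j ≠ 0 ∧ |d i| ≠ |d j|) :
    ∃ V : ℝ → ℝ, ConvexOn ℝ Set.univ V ∧ (∀ x, V (-x) = V x) ∧
      Integrable (fun x => Real.exp (-V x)) ∧ ∫ x, Real.exp (-V x) = 1 ∧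
      (∃ (Ω : Type) (_ : MeasurableSpace Ω) (P : Measure Ω) (_ : IsProbabilityMeasure P)
        (X : Fin n → Ω → ℝ), (∀ i, Measurable (X i)) ∧ iIndepFun X P ∧
        ∀ i, P.map (X i) = volume.withDensity (fun x => ENNReal.ofReal (Real.exp (-V x)))) ∧
      ∀ (Ω : Type) [MeasurableSpace Ω] (P : Measure Ω) [IsProbabilityMeasure P]
        (X : Fin n → Ω → ℝ), (∀ i, Measurable (X i)) → iIndepFun X P →
        (∀ i, P.map (X i) = volume.withDensity (fun x => ENNReal.ofReal (Real.exp (-V x)))) →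
        lawSum P X d ≪ volume ∧ lawSum P X (fun _ => 1 / √n) ≪ volume ∧
        Integrable (entIntegrand (lawSum P X d)) ∧
        Integrable (entIntegrand (lawSum P X (fun _ => 1 / √n))) ∧
        diffEntropy (lawSum P X (fun _ => 1 / √n)) < diffEntropy (lawSum P X d) := by
  have hflat' : ¬ Pool.Agent.H46.Ent.Flat d := by
    obtain ⟨i, j, hi, hj, hij⟩ := hflat
    exact fun h => hij (h i j hi hj)
  obtain ⟨ω, hω1, hgd, hge, hlt⟩ := Pool.Agent.H46.Ent.exists_good hn hd hflat'
  have hω : 0 < ω := by linarith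
  have hZ : 0 < Pool.Agent.H46.Ent.Zc (Pool.Agent.H46.Ent.ep ω) ω :=
    Pool.Agent.H46.Ent.Zc_pos (Pool.Agent.H46.Ent.ep_pos ω).le
  have hV : ∀ x, Real.exp (-(Pool.Agent.H46.Ent.psi ω x +
      Real.log (Pool.Agent.H46.Ent.Zc (Pool.Agent.H46.Ent.ep ω) ω))) =
      Pool.Agent.H46.Ent.fd (Pool.Agent.H46.Ent.ep ω) ω x := by
    intro x
    rw [Pool.Agent.H46.Ent.fd_exp hω, neg_add, Real.exp_add, Real.exp_neg (Real.log _),
      Real.exp_log hZ, mul_comm]
  refine ⟨fun x => Pool.Agent.H46.Ent.psi ω x +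
      Real.log (Pool.Agent.H46.Ent.Zc (Pool.Agent.H46.Ent.ep ω) ω), ?_, ?_, ?_, ?_, ?_, ?_⟩
  · exact (Pool.Agent.H46.Ent.convex_psi hω).add_const _
  · intro x
    simp only
    congr 1
    unfold Pool.Agent.H46.Ent.psi
    rw [neg_sq, mul_neg, Real.cos_neg]
  · simp only [hV]
    exact Pool.Agent.H46.Ent.fd_integrable _ _
  · simp only [hV]
    exact Pool.Agent.H46.Ent.fd_integral ω (Pool.Agent.H46.Ent.ep_pos ω).le
  · simp only [hV]
    obtain ⟨Ω, iM, iP, X, h1, h2, h3⟩ := Pool.Agent.H46.Ent.exists_iid n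
      (f := Pool.Agent.H46.Ent.fd (Pool.Agent.H46.Ent.ep ω) ω)
      (fun x => (Pool.Agent.H46.Ent.fd_pos hω x).le)
      (Pool.Agent.H46.Ent.fd_integrable _ _)
      (Pool.Agent.H46.Ent.fd_integral ω (Pool.Agent.H46.Ent.ep_pos ω).le)
    exact ⟨Ω, iM.toMeasurableSpace, volume, iP, X, h1, h2, h3⟩
  · intro Ω _ P _ X hXm hind hlaw
    simp only [hV] at hlaw
    let iM : MeasureSpace Ω := ⟨P⟩
    have iP : IsProbabilityMeasure (volume : Measure Ω) := ‹IsProbabilityMeasure P›
    have h1 := integrable_ent (Pool.Agent.H46.Ent.ep_pos ω).le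
      (Pool.Agent.H46.Ent.ep_le_one ω) (Ω := Ω) hXm hind hlaw hgd
    have h2 := integrable_ent (Pool.Agent.H46.Ent.ep_pos ω).le
      (Pool.Agent.H46.Ent.ep_le_one ω) (Ω := Ω) hXm hind hlaw hge
    have h3 := Pool.Agent.H46.Ent.entropy_lt (Pool.Agent.H46.Ent.ep_pos ω).le
      (Pool.Agent.H46.Ent.ep_le_one ω) (Ω := Ω) hXm hind hlaw hgd hge hlt
    exact ⟨h1.1, h2.1, h1.2, h2.2, h3⟩

end Pool.Agent.Results.MP_1d7c3b_pr.NonFlatWeights
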